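import Pool.Agent.Results.MP_2da123_co.DimSix

set_option autoImplicit false

namespace Pool.Agent.U410.DJ

open Set Filter Topology
open Pool.Agent.Results.MP_2da123_co.DimSix

/-- Transfer of polytopality along an isomorphism of graphs. -/
theorem polytopal_of_iso {d : ℕ} {U U' : Type} {H : SimpleGraph U} {H' : SimpleGraph U'}
    (e : U' ≃ U) (he : ∀ a b, H'.Adj a b ↔ H.Adj (e a) (e b)) (h : IsPolytopal d H) :
    IsPolytopal d H' := by
  obtain ⟨P, p, hS, hint, hinj, hext, hadj⟩ := h
  refine ⟨P, p ∘ e, hS, hint, hinj.comp e.injective, ?_, fun u v => ?_⟩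
  · rw [e.surjective.range_comp, hext]
  · rw [he, hadj]
    simp only [Function.comp_apply, ne_eq, EmbeddingLike.apply_eq_iff_eq]

noncomputable def fl {d : ℕ} (a : Fin d → ℝ) : EuclideanSpace ℝ (Fin d) →L[ℝ] ℝ :=
  ∑ k : Fin d, a k • EuclideanSpace.proj k

theorem fl_apply {d : ℕ} (a : Fin d → ℝ) (x : EuclideanSpace ℝ (Fin d)) :
    fl a x = ∑ k, a k * x k := by
  simp [fl]

/-- A certificate for polytopality in dimension `d`. -/
theorem polytopal_of_cert {d : ℕ} {U : Type} [Fintype U] [Nonempty U] (H : SimpleGraph U)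
    (p : U → EuclideanSpace ℝ (Fin d))
    (hspan : ∀ (a : Fin d → ℝ) (b : ℝ), (∀ u, ∑ k, a k * p u k + b = 0) → a = 0)
    (hV : ∀ u, ∃ (a : Fin d → ℝ) (b : ℝ), ∑ k, a k * p u k + b = 0 ∧
      ∀ w, w ≠ u → 0 < ∑ k, a k * p w k + b)
    (hE : ∀ u v, H.Adj u v → ∃ (a : Fin d → ℝ) (b : ℝ), ∑ k, a k * p u k + b ≤ 0 ∧
      ∑ k, a k * p v k + b ≤ 0 ∧ ∀ w, w ≠ u → w ≠ v → 0 < ∑ k, a k * p w k + b)
    (hN : ∀ u v, u ≠ v → ¬ H.Adj u v → ∃ (a b : ℝ) (c : U → ℝ) (w : U), w ≠ u ∧ w ≠ v ∧
      (∀ x, 0 ≤ c x) ∧ 0 < c w ∧ ∑ x, c x = a + b ∧ a • p u + b • p v = ∑ x, c x • p x) :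
    IsPolytopal d H := by
  classical
  have hinj : Function.Injective p := by
    intro u w huw
    by_contra hne
    obtain ⟨a, b, h0, hpos⟩ := hV u
    have h2 := hpos w (Ne.symm hne)
    rw [← huw, h0] at h2
    exact lt_irrefl _ h2
  have hext : range p = (convexHull ℝ (range p)).extremePoints ℝ := by
    apply extremePoints_eq
    intro u
    obtain ⟨a, b, h0, hpos⟩ := hV u
    refine ⟨fl a, b, ?_, fun w hw => ?_⟩
    · rw [fl_apply]; exact h0
    · rw [fl_apply]; exact hpos w hw
  refine ⟨convexHull ℝ (range p), p, ⟨(finite_range p).toFinset, by simp⟩, ?_, hinj, hext, ?_⟩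
  · rw [interior_convexHull_nonempty_iff_affineSpan_eq_top]
    obtain ⟨u0⟩ := (inferInstance : Nonempty U)
    have hnonempty : (affineSpan ℝ (range p) : Set _).Nonempty :=
      ⟨p u0, subset_affineSpan ℝ _ (mem_range_self u0)⟩
    by_contra hcon
    have hdir : (affineSpan ℝ (range p)).direction < ⊤ := by
      rw [lt_top_iff_ne_top]
      intro hd
      exact hcon ((AffineSubspace.direction_eq_top_iff_of_nonempty hnonempty).1 hd)
    obtain ⟨g, hg0, hg⟩ := Submodule.exists_le_ker_of_lt_top _ hdir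
    have hdec : ∀ x : EuclideanSpace ℝ (Fin d),
        g x = ∑ k, g (EuclideanSpace.single k 1) * x k := by
      intro x
      have hx : x = ∑ k : Fin d, (x k) • EuclideanSpace.single k (1 : ℝ) := by
        ext j
        simp [Finset.sum_apply, Pi.single_apply]
      conv_lhs => rw [hx]
      rw [map_sum]
      exact Finset.sum_congr rfl fun k _ => by rw [map_smul, smul_eq_mul, mul_comm]
    have hconst : ∀ u, g (p u) = g (p u0) := by
      intro u
      have : p u -ᵥ p u0 ∈ (affineSpan ℝ (range p)).direction :=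
        AffineSubspace.vsub_mem_direction (subset_affineSpan ℝ _ (mem_range_self u))
          (subset_affineSpan ℝ _ (mem_range_self u0))
      have h2 := hg this
      rw [LinearMap.mem_ker, vsub_eq_sub, map_sub] at h2
      linarith
    have h0 := hspan (fun k => g (EuclideanSpace.single k 1)) (-g (p u0)) fun u => by
      rw [← hdec, hconst]; ring
    apply hg0
    apply LinearMap.ext
    intro x
    rw [hdec x]
    simp [fun k => congrFun h0 k]
  · intro u v
    constructor
    · intro huv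
      refine ⟨huv.ne, ?_⟩
      obtain ⟨a0, b0, hu0, hv0, hw0⟩ := hE u v huv
      obtain ⟨Au, Bu, hFu0, hFuw⟩ := hV u
      obtain ⟨Av, Bv, hFv0, hFvw⟩ := hV v
      have hFuv := hFuw v huv.ne'
      have hFvu := hFvw u huv.ne
      set α : ℝ := -(∑ k, a0 k * p u k + b0) / (∑ k, Av k * p u k + Bv) with hα'
      set β : ℝ := -(∑ k, a0 k * p v k + b0) / (∑ k, Au k * p v k + Bu) with hβ'
      have hα : 0 ≤ α := div_nonneg (by linarith) hFvu.le
      have hβ : 0 ≤ β := div_nonneg (by linarith) hFuv.le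
      have hval : ∀ w, ∑ k, (a0 k + α * Av k + β * Au k) * p w k + (b0 + α * Bv + β * Bu) =
          (∑ k, a0 k * p w k + b0) + α * (∑ k, Av k * p w k + Bv) +
            β * (∑ k, Au k * p w k + Bu) := by
        intro w
        simp only [add_mul, Finset.sum_add_distrib, mul_add, Finset.mul_sum, mul_assoc]
        ring
      refine exposed_segment p u v (fl fun k => a0 k + α * Av k + β * Au k)
        (b0 + α * Bv + β * Bu) ?_ ?_ fun w hwu hwv => ?_
      · rw [fl_apply, hval, hFu0, hα', div_mul_cancel₀ _ hFvu.ne']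
        ring
      · rw [fl_apply, hval, hFv0, hβ', div_mul_cancel₀ _ hFuv.ne']
        ring
      · rw [fl_apply, hval]
        have h1 := hw0 w hwu hwv
        have h2 := hFuw w hwu
        have h3 := hFvw w hwv
        positivity
    · rintro ⟨hne, hexp⟩
      by_contra hadj
      obtain ⟨a, b, c, w, hwu, hwv, hc, hcw, hsum, hcomb⟩ := hN u v hne hadj
      exact not_exposed p hinj hext u v w hwu hwv a b c hc hcw hsum hcomb hexp

end Pool.Agent.U410.DJ
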