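import Pool.Agent.U410.DJ.Ind

set_option autoImplicit false

namespace Pool.Agent.U410.DJ

open Set Filter Topology

section
variable {V : Type} (G : SimpleGraph V) (o : V → ℕ)

/-- cluster points: one triple for every non-adjacent pair -/
def Clu : Type := {t : V × V × Fin 3 // o t.1 < o t.2.1 ∧ ¬ G.Adj t.1 t.2.1}

noncomputable instance [Fintype V] : Fintype (Clu G o) := by
  classical
  unfold Clu
  infer_instance

instance : Nonempty (V ⊕ (Clu G o ⊕ Fin 6)) := ⟨Sum.inr (Sum.inr 0)⟩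

variable {G o}

def Clu.i (t : Clu G o) : V := t.1.1
def Clu.j (t : Clu G o) : V := t.1.2.1
def Clu.k (t : Clu G o) : Fin 3 := t.1.2.2

theorem Clu.ext' {t t' : Clu G o} (h1 : t.i = t'.i) (h2 : t.j = t'.j) (h3 : t.k = t'.k) :
    t = t' := by
  apply Subtype.ext
  exact Prod.ext h1 (Prod.ext h2 h3)

theorem Clu.lt (t : Clu G o) : o t.i < o t.j := t.2.1
theorem Clu.nadj (t : Clu G o) : ¬ G.Adj t.i t.j := t.2.2
theorem Clu.ne (t : Clu G o) : t.i ≠ t.j := fun h => by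
  have := t.lt
  rw [h] at this
  exact lt_irrefl _ this

/-- two clusters on different pairs: some vertex of the first is not in the second -/
theorem Clu.exists_private (t t' : Clu G o) (h : ¬ (t.i = t'.i ∧ t.j = t'.j)) :
    ∃ z, (z = t.i ∨ z = t.j) ∧ z ≠ t'.i ∧ z ≠ t'.j := by
  by_contra hcon
  push Not at hcon
  have h1 := hcon t.i (Or.inl rfl)
  have h2 := hcon t.j (Or.inr rfl)
  have hlt := t.lt
  have hlt' := t'.lt
  have hne := t.ne
  by_cases h3 : t.i = t'.i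
  · by_cases h4 : t.j = t'.i
    · exact hne (h3.trans h4.symm)
    · exact h ⟨h3, h2 h4⟩
  · have h5 := h1 h3
    by_cases h6 : t.j = t'.i
    · rw [h5, h6] at hlt
      omega
    · exact hne (h5.trans (h2 h6).symm)

variable (G o)

/-- all vertices of the polytope -/
abbrev UU : Type := V ⊕ (Clu G o ⊕ Fin 6)

variable {G o}

open Classical in
/-- the formal base point, coordinates in `V` -/
noncomputable def bV : UU G o → V → ℝ
  | Sum.inl v => fun z => if z = v then 1 else 0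
  | Sum.inr (Sum.inl t) => fun z =>
      (if z = t.i then 1 - tau t.k else 0) + (if z = t.j then tau t.k else 0)
  | Sum.inr (Sum.inr _) => fun _ => 0

noncomputable def bF : UU G o → Fin 3 → ℝ
  | Sum.inl _ => fun _ => 0
  | Sum.inr (Sum.inl _) => fun _ => 0
  | Sum.inr (Sum.inr r) => Q r

noncomputable def bb (u : UU G o) : V ⊕ Fin 3 → ℝ := Sum.elim (bV u) (bF u)

theorem bb_sum [Fintype V] (u : UU G o) : ∑ z, bb u z = 1 := by
  classical
  rw [Fintype.sum_sum_type]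
  simp only [bb, Sum.elim_inl, Sum.elim_inr]
  rcases u with v | t | r
  · simp [bV, bF]
  · simp [bV, bF, Finset.sum_add_distrib]
  · simp [bV, bF, Fin.sum_univ_three, Q_sum]

theorem bV_clu_i (t : Clu G o) : bV (Sum.inr (Sum.inl t) : UU G o) t.i = 1 - tau t.k := by
  simp [bV, t.ne]

theorem bV_clu_j (t : Clu G o) : bV (Sum.inr (Sum.inl t) : UU G o) t.j = tau t.k := by
  simp [bV, t.ne.symm]

theorem bV_clu_ne (t : Clu G o) (z : V) (h : z = t.i ∨ z = t.j) :
    bV (Sum.inr (Sum.inl t) : UU G o) z ≠ 0 := by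
  rcases h with rfl | rfl
  · rw [bV_clu_i]; exact (tau_ne _).2
  · rw [bV_clu_j]; exact (tau_ne _).1

theorem bV_clu_zero (t : Clu G o) (z : V) (h1 : z ≠ t.i) (h2 : z ≠ t.j) :
    bV (Sum.inr (Sum.inl t) : UU G o) z = 0 := by
  simp [bV, h1, h2]

theorem bb_F_coord (r : Fin 6) : ∃ c : Fin 3, Q r c ≠ 0 := by
  by_contra h
  push Not at h
  have := Q_sum r
  rw [h 0, h 1, h 2] at this
  norm_num at this

theorem Q_inj {r s : Fin 6} (h : Q r = Q s) : r = s := by
  by_contra hne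
  have key : ∀ r s : Fin 6, ∃ t : Fin 6, r ≠ t ∧ s ≠ t := by decide
  obtain ⟨t, h1, h2⟩ := key r s
  have := ind3_Q r s t hne h1 h2 1 (-1) 0 fun c => by rw [h]; ring
  exact one_ne_zero this.1

theorem bb_inj : Function.Injective (bb : UU G o → V ⊕ Fin 3 → ℝ) := by
  have hV : ∀ {u w : UU G o}, bb u = bb w → ∀ z, bV u z = bV w z := fun h z =>
    congrFun h (Sum.inl z)
  have hF : ∀ {u w : UU G o}, bb u = bb w → ∀ z, bF u z = bF w z := fun h z =>
    congrFun h (Sum.inr z)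
  rintro (v | t | r) (v' | t' | r') h
  · have := hV h v
    by_contra hne
    have h2 : v ≠ v' := fun h => hne (by rw [h])
    simp [bV, h2] at this
  · exfalso
    by_cases hv : v = t'.i
    · have h1 := hV h t'.j
      rw [bV_clu_j] at h1
      have : t'.j ≠ v := fun h => t'.ne (h.trans hv).symm
      simp only [bV, this, if_false] at h1
      exact (tau_ne _).1 h1.symm
    · have h1 := hV h t'.i
      rw [bV_clu_i] at h1
      have : t'.i ≠ v := fun h => hv h.symm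
      simp only [bV, this, if_false] at h1
      exact (tau_ne _).2 h1.symm
  · exfalso
    obtain ⟨c, hc⟩ := bb_F_coord r'
    exact hc (hF h c).symm
  · exfalso
    by_cases hv : v' = t.i
    · have h1 := hV h t.j
      rw [bV_clu_j] at h1
      have : t.j ≠ v' := fun h => t.ne (h.trans hv).symm
      simp only [bV, this, if_false] at h1
      exact (tau_ne _).1 h1
    · have h1 := hV h t.i
      rw [bV_clu_i] at h1
      have : t.i ≠ v' := fun h => hv h.symm
      simp only [bV, this, if_false] at h1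
      exact (tau_ne _).2 h1
  · by_cases hp : t.i = t'.i ∧ t.j = t'.j
    · have h1 := hV h t.j
      rw [bV_clu_j] at h1
      have h2 : bV (Sum.inr (Sum.inl t') : UU G o) t.j = tau t'.k := by
        rw [hp.2, bV_clu_j]
      rw [h2] at h1
      have := tau_inj h1
      rw [Clu.ext' hp.1 hp.2 this]
    · exfalso
      obtain ⟨z, h1, h2, h3⟩ := Clu.exists_private t t' hp
      have h4 := hV h z
      rw [bV_clu_zero t' z h2 h3] at h4
      exact bV_clu_ne t z h1 h4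
  · exfalso
    obtain ⟨c, hc⟩ := bb_F_coord r'
    exact hc (hF h c).symm
  · exfalso
    obtain ⟨c, hc⟩ := bb_F_coord r
    exact hc (hF h c)
  · exfalso
    obtain ⟨c, hc⟩ := bb_F_coord r
    exact hc (hF h c)
  · have : Q r = Q r' := funext fun c => hF h c
    rw [Q_inj this]

variable [Fintype V]

/-- private coordinate in `V` -/
theorem priv_V {u v w : UU G o} (huv : u ≠ v) (z : V) (h : bV w z ≠ 0) (h1 : bV u z = 0)
    (h2 : bV v z = 0) : Ind3 (bb u) (bb v) (bb w) :=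
  ind3_priv (bb_sum u) (bb_sum v) (fun h => huv (bb_inj h)) (Sum.inl z) h h1 h2

theorem priv_F {u v : UU G o} (huv : u ≠ v) (r : Fin 6) (h1 : bF u = 0)
    (h2 : bF v = 0) : Ind3 (bb u) (bb v) (bb (Sum.inr (Sum.inr r) : UU G o)) := by
  obtain ⟨c, hc⟩ := bb_F_coord r
  refine ind3_priv (bb_sum u) (bb_sum v) (fun h => huv (bb_inj h)) (Sum.inr c) hc ?_ ?_
  · exact congrFun h1 c
  · exact congrFun h2 c

theorem ind_VVV {a b c : V} (h1 : a ≠ b) (h2 : a ≠ c) (h3 : b ≠ c) :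
    Ind3 (bb (Sum.inl a : UU G o)) (bb (Sum.inl b : UU G o)) (bb (Sum.inl c : UU G o)) := by
  refine priv_V (fun h => h1 (Sum.inl_injective h)) c ?_ ?_ ?_
  · simp [bV]
  · simp [bV, h2.symm]
  · simp [bV, h3.symm]

theorem ind_VVC {a b : V} (t : Clu G o) (h1 : a ≠ b)
    (h2 : ¬ ((a = t.i ∨ a = t.j) ∧ (b = t.i ∨ b = t.j))) :
    Ind3 (bb (Sum.inl a : UU G o)) (bb (Sum.inl b : UU G o))
      (bb (Sum.inr (Sum.inl t) : UU G o)) := by
  rw [not_and_or] at h2
  rcases h2 with h2 | h2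
  · push Not at h2
    have : Ind3 (bb (Sum.inl b : UU G o)) (bb (Sum.inr (Sum.inl t) : UU G o))
        (bb (Sum.inl a : UU G o)) := by
      refine priv_V (by simp) a ?_ ?_ ?_
      · simp [bV]
      · simp [bV, h1]
      · exact bV_clu_zero t a h2.1 h2.2
    exact this.rot.rot
  · push Not at h2
    have : Ind3 (bb (Sum.inl a : UU G o)) (bb (Sum.inr (Sum.inl t) : UU G o))
        (bb (Sum.inl b : UU G o)) := by
      refine priv_V (by simp) b ?_ ?_ ?_
      · simp [bV]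
      · simp [bV, h1.symm]
      · exact bV_clu_zero t b h2.1 h2.2
    exact this.rot.rot.swap

theorem ind_VCC {a : V} (t t' : Clu G o) (ht : t ≠ t') (h1 : a ≠ t.i) (h2 : a ≠ t.j) :
    Ind3 (bb (Sum.inl a : UU G o)) (bb (Sum.inr (Sum.inl t) : UU G o))
      (bb (Sum.inr (Sum.inl t') : UU G o)) := by
  by_cases hp : t.i = t'.i ∧ t.j = t'.j
  · have : Ind3 (bb (Sum.inr (Sum.inl t) : UU G o)) (bb (Sum.inr (Sum.inl t') : UU G o))
        (bb (Sum.inl a : UU G o)) := by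
      refine priv_V (fun h => ht (Sum.inl_injective (Sum.inr_injective h))) a ?_ ?_ ?_
      · simp [bV]
      · exact bV_clu_zero t a h1 h2
      · exact bV_clu_zero t' a (hp.1 ▸ h1) (hp.2 ▸ h2)
    exact this.rot.rot
  · obtain ⟨z, hz1, hz2, hz3⟩ := Clu.exists_private t t' hp
    have hza : z ≠ a := by
      rcases hz1 with rfl | rfl
      · exact h1.symm
      · exact h2.symm
    have : Ind3 (bb (Sum.inl a : UU G o)) (bb (Sum.inr (Sum.inl t') : UU G o))
        (bb (Sum.inr (Sum.inl t) : UU G o)) := by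
      refine priv_V (by simp) z (bV_clu_ne t z hz1) ?_ (bV_clu_zero t' z hz2 hz3)
      simp [bV, hza]
    exact this.rot.rot.swap

theorem wt_clu (t : Clu G o) (x y : V) (hx : x = t.i ∨ x = t.j) (hy : y = t.i ∨ y = t.j)
    (hxy : x ≠ y) : Wt (bV (Sum.inr (Sum.inl t) : UU G o) x)
      (bV (Sum.inr (Sum.inl t) : UU G o) y) := by
  rcases hx with rfl | rfl <;> rcases hy with rfl | rfl
  · exact absurd rfl hxy
  · rw [bV_clu_i, bV_clu_j]; exact wt_tau _
  · rw [bV_clu_i, bV_clu_j]; exact wt_swap (wt_tau _)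
  · exact absurd rfl hxy

theorem ind_CCC (t1 t2 t3 : Clu G o) (h12 : t1 ≠ t2) (h13 : t1 ≠ t3) (h23 : t2 ≠ t3)
    (hne : ¬ (t1.i = t2.i ∧ t1.j = t2.j ∧ t1.i = t3.i ∧ t1.j = t3.j)) :
    Ind3 (bb (Sum.inr (Sum.inl t1) : UU G o)) (bb (Sum.inr (Sum.inl t2) : UU G o))
      (bb (Sum.inr (Sum.inl t3) : UU G o)) := by
  have inj : ∀ {t t' : Clu G o}, t ≠ t' →
      (Sum.inr (Sum.inl t) : UU G o) ≠ Sum.inr (Sum.inl t') := fun h h' =>
    h (Sum.inl_injective (Sum.inr_injective h'))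
  by_cases p12 : t1.i = t2.i ∧ t1.j = t2.j
  · have p31 : ¬ (t3.i = t1.i ∧ t3.j = t1.j) := fun h => hne ⟨p12.1, p12.2, h.1.symm, h.2.symm⟩
    obtain ⟨z, hz1, hz2, hz3⟩ := Clu.exists_private t3 t1 p31
    exact priv_V (inj h12) z (bV_clu_ne t3 z hz1) (bV_clu_zero t1 z hz2 hz3)
      (bV_clu_zero t2 z (p12.1 ▸ hz2) (p12.2 ▸ hz3))
  by_cases p13 : t1.i = t3.i ∧ t1.j = t3.j
  · have p21 : ¬ (t2.i = t1.i ∧ t2.j = t1.j) := fun h => p12 ⟨h.1.symm, h.2.symm⟩
    obtain ⟨z, hz1, hz2, hz3⟩ := Clu.exists_private t2 t1 p21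
    have := priv_V (inj h13) z (bV_clu_ne t2 z hz1) (bV_clu_zero t1 z hz2 hz3)
      (bV_clu_zero t3 z (p13.1 ▸ hz2) (p13.2 ▸ hz3))
    exact this.rot.rot.swap
  by_cases p23 : t2.i = t3.i ∧ t2.j = t3.j
  · obtain ⟨z, hz1, hz2, hz3⟩ := Clu.exists_private t1 t2 p12
    have := priv_V (inj h23) z (bV_clu_ne t1 z hz1) (bV_clu_zero t2 z hz2 hz3)
      (bV_clu_zero t3 z (p23.1 ▸ hz2) (p23.2 ▸ hz3))
    exact this.rot.rot
  by_cases q1 : ∃ z, (z = t1.i ∨ z = t1.j) ∧ (z ≠ t2.i ∧ z ≠ t2.j) ∧ (z ≠ t3.i ∧ z ≠ t3.j)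
  · obtain ⟨z, hz1, hz2, hz3⟩ := q1
    have := priv_V (inj h23) z (bV_clu_ne t1 z hz1) (bV_clu_zero t2 z hz2.1 hz2.2)
      (bV_clu_zero t3 z hz3.1 hz3.2)
    exact this.rot.rot
  by_cases q2 : ∃ z, (z = t2.i ∨ z = t2.j) ∧ (z ≠ t1.i ∧ z ≠ t1.j) ∧ (z ≠ t3.i ∧ z ≠ t3.j)
  · obtain ⟨z, hz1, hz2, hz3⟩ := q2
    have := priv_V (inj h13) z (bV_clu_ne t2 z hz1) (bV_clu_zero t1 z hz2.1 hz2.2)
      (bV_clu_zero t3 z hz3.1 hz3.2)
    exact this.rot.rot.swap
  -- the triangle case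
  obtain ⟨x, hx1, hx3, hx3'⟩ := Clu.exists_private t1 t3 p13
  obtain ⟨y, hy1, hy2, hy2'⟩ := Clu.exists_private t1 t2 p12
  have hx2 : x = t2.i ∨ x = t2.j := by
    by_contra hc
    push Not at hc
    exact q1 ⟨x, hx1, hc, hx3, hx3'⟩
  have hy3 : y = t3.i ∨ y = t3.j := by
    by_contra hc
    push Not at hc
    exact q1 ⟨y, hy1, ⟨hy2, hy2'⟩, hc⟩
  have p21 : ¬ (t2.i = t1.i ∧ t2.j = t1.j) := fun h => p12 ⟨h.1.symm, h.2.symm⟩
  obtain ⟨z, hz2, hz1, hz1'⟩ := Clu.exists_private t2 t1 p21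
  have hz3 : z = t3.i ∨ z = t3.j := by
    by_contra hc
    push Not at hc
    exact q2 ⟨z, hz2, ⟨hz1, hz1'⟩, hc⟩
  have hxy : x ≠ y := by
    rintro rfl
    rcases hx2 with h | h
    · exact hy2 h
    · exact hy2' h
  have hxz : x ≠ z := by
    rintro rfl
    rcases hx1 with h | h
    · exact hz1 h
    · exact hz1' h
  have hyz : y ≠ z := by
    rintro rfl
    rcases hy1 with h | h
    · exact hz1 h
    · exact hz1' h
  intro l m n hrel
  have e1 := hrel (Sum.inl x)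
  have e2 := hrel (Sum.inl y)
  have e3 := hrel (Sum.inl z)
  simp only [bb, Sum.elim_inl] at e1 e2 e3
  rw [bV_clu_zero t3 x hx3 hx3', mul_zero, add_zero] at e1
  rw [bV_clu_zero t2 y hy2 hy2', mul_zero, add_zero] at e2
  rw [bV_clu_zero t1 z hz1 hz1', mul_zero, zero_add] at e3
  exact menelaus (wt_clu t1 x y hx1 hy1 hxy) (wt_clu t2 x z hx2 hz2 hxz)
    (wt_clu t3 y z hy3 hz3 hyz) e1 e2 e3

theorem bF_V (a : V) : bF (Sum.inl a : UU G o) = 0 := rfl
theorem bF_C (t : Clu G o) : bF (Sum.inr (Sum.inl t) : UU G o) = 0 := rfl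

/-- one non-free and two free points -/
theorem ind_NFF (u : UU G o) (r s : Fin 6) (hrs : r ≠ s) (z : V) (hz : bV u z ≠ 0) :
    Ind3 (bb (Sum.inr (Sum.inr r) : UU G o)) (bb (Sum.inr (Sum.inr s) : UU G o)) (bb u) :=
  priv_V (fun h => hrs (Sum.inr_injective (Sum.inr_injective h))) z hz rfl rfl

theorem ind_FFF (r s t : Fin 6) (h1 : r ≠ s) (h2 : r ≠ t) (h3 : s ≠ t) :
    Ind3 (bb (Sum.inr (Sum.inr r) : UU G o)) (bb (Sum.inr (Sum.inr s) : UU G o))
      (bb (Sum.inr (Sum.inr t) : UU G o)) := by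
  intro l m n h
  exact ind3_Q r s t h1 h2 h3 l m n fun c => h (Sum.inr c)

end

end Pool.Agent.U410.DJ
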