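import Pool.Agent.U410.DJ.Cert

set_option autoImplicit false

namespace Pool.Agent.U410.DJ

open Set Filter Topology
open Pool.Agent.Results.MP_2da123_co.DimSix

noncomputable def pt (x y k : ℝ) : EuclideanSpace ℝ (Fin 5) :=
  WithLp.toLp 2 ![x, y, x ^ 2, x * y, y ^ 2 + k]

/-- twice the signed area of the triangle `(x1,y1) (x2,y2) (x3,y3)` -/
def area (x1 y1 x2 y2 x3 y3 : ℝ) : ℝ := (x2 - x1) * (y3 - y1) - (x3 - x1) * (y2 - y1)

section
variable {U : Type} (x y0 η κ : U → ℝ)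

noncomputable def pos (s : ℝ) (u : U) : EuclideanSpace ℝ (Fin 5) :=
  pt (x u) (y0 u + s * η u) (κ u * s ^ 2)

def DD (s : ℝ) (u v w : U) : ℝ :=
  area (x u) (y0 u + s * η u) (x v) (y0 v + s * η v) (x w) (y0 w + s * η w)

def FF (i j : U) (B C E F s : ℝ) (w : U) : ℝ :=
  (DD x y0 η s i j w) ^ 2 + κ w * s ^ 2 * (x j - x i) ^ 2 +
    s * (C * (x j - x i) + B * (x w - x i)) * DD x y0 η s i j w +
    s ^ 2 * (E * (x j - x i) * (x w - x i) + F * (x j - x i) ^ 2)

theorem FF_form (i j : U) (B C E F s : ℝ) : ∃ (a : Fin 5 → ℝ) (b : ℝ), ∀ w,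
    ∑ k, a k * pos x y0 η κ s w k + b = FF x y0 η κ i j B C E F s w := by
  set d := x j - x i with hd
  set m := (y0 j + s * η j) - (y0 i + s * η i) with hm
  set g := -d * (y0 i + s * η i) + m * x i with hg
  refine ⟨![-2 * m * g + (s * B) * (g + x i * m) - (s * C * d) * m + s ^ 2 * E * d,
    2 * d * g - (s * B) * x i * d + (s * C * d) * d, m ^ 2 - (s * B) * m,
    -2 * d * m + (s * B) * d, d ^ 2],
    g ^ 2 - (s * B) * x i * g + (s * C * d) * g - s ^ 2 * E * d * x i + s ^ 2 * F * d ^ 2,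
    fun w => ?_⟩
  simp only [Fin.sum_univ_five, pos, pt, FF, DD, area, Matrix.cons_val_zero, Matrix.cons_val_one,
    Matrix.cons_val]
  rw [← hd, ← hm]
  simp only [hg]
  ring

theorem VV_form (u : U) (s : ℝ) : ∃ (a : Fin 5 → ℝ) (b : ℝ), ∀ w,
    ∑ k, a k * pos x y0 η κ s w k + b =
      (x w - x u) ^ 2 + ((y0 w + s * η w) - (y0 u + s * η u)) ^ 2 + (κ w - κ u) * s ^ 2 := by
  refine ⟨![-2 * x u, -2 * (y0 u + s * η u), 1, 0, 1],
    (x u) ^ 2 + (y0 u + s * η u) ^ 2 - κ u * s ^ 2, fun w => ?_⟩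
  simp only [Fin.sum_univ_five, pos, pt, Matrix.cons_val_zero, Matrix.cons_val_one,
    Matrix.cons_val]
  ring

theorem evpos {f : ℝ → ℝ} (hf : Continuous f) (h0 : 0 < f 0) :
    ∀ᶠ s in 𝓝[>] (0 : ℝ), 0 < f s :=
  (hf.continuousAt.tendsto.eventually (lt_mem_nhds h0)).filter_mono nhdsWithin_le_nhds

theorem core [Fintype U] [Nonempty U] (H : SimpleGraph U)
    (hx : Function.Injective x) (hκ : ∀ u, κ u = 0 ∨ κ u = 1)
    (hspan : ∀ s, ∀ (a : Fin 5 → ℝ) (b : ℝ),
      (∀ u, ∑ k, a k * pos x y0 η κ s u k + b = 0) → a = 0)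
    (hedge : ∀ u v, H.Adj u v → ∃ (i j : U) (B C E F : ℝ),
      (∀ s, FF x y0 η κ i j B C E F s u ≤ 0) ∧ (∀ s, FF x y0 η κ i j B C E F s v ≤ 0) ∧
      ∀ w, w ≠ u → w ≠ v → DD x y0 η 0 i j w ≠ 0 ∨
        ∃ c, 0 < c ∧ ∀ s, s ^ 2 * c ≤ FF x y0 η κ i j B C E F s w)
    (hN : ∀ u v, u ≠ v → ¬ H.Adj u v → ∃ (a b : ℝ) (c : U → ℝ) (w : U), w ≠ u ∧ w ≠ v ∧
      (∀ x, 0 ≤ c x) ∧ 0 < c w ∧ ∑ x, c x = a + b ∧
      ∀ s, a • pos x y0 η κ s u + b • pos x y0 η κ s v = ∑ z, c z • pos x y0 η κ s z) :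
    IsPolytopal 5 H := by
  classical
  have cV : ∀ᶠ s in 𝓝[>] (0 : ℝ), ∀ u w, w ≠ u → 0 < (x w - x u) ^ 2 - s ^ 2 := by
    rw [eventually_all]; intro u
    rw [eventually_all]; intro w
    by_cases h : w = u
    · exact Eventually.of_forall fun _ h' => absurd h h'
    have hne : x w - x u ≠ 0 := sub_ne_zero.2 fun h' => h (hx h')
    have := evpos (f := fun s => (x w - x u) ^ 2 - s ^ 2) (by fun_prop) (by
      simp only [ne_eq, OfNat.ofNat_ne_zero, not_false_eq_true, zero_pow, sub_zero]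
      positivity)
    filter_upwards [this] with s hs _ using hs
  have cE : ∀ᶠ s in 𝓝[>] (0 : ℝ), ∀ u v, H.Adj u v → ∃ (i j : U) (B C E F : ℝ),
      FF x y0 η κ i j B C E F s u ≤ 0 ∧ FF x y0 η κ i j B C E F s v ≤ 0 ∧
      ∀ w, w ≠ u → w ≠ v → 0 < FF x y0 η κ i j B C E F s w := by
    rw [eventually_all]; intro u
    rw [eventually_all]; intro v
    by_cases h : H.Adj u v
    swap
    · exact Eventually.of_forall fun _ h' => absurd h' h
    obtain ⟨i, j, B, C, E, F, h1, h2, h3⟩ := hedge u v h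
    have h4 : ∀ᶠ s in 𝓝[>] (0 : ℝ), ∀ w, w ≠ u → w ≠ v → 0 < FF x y0 η κ i j B C E F s w := by
      rw [eventually_all]; intro w
      by_cases hw : w = u
      · exact Eventually.of_forall fun _ h' => absurd hw h'
      by_cases hw' : w = v
      · exact Eventually.of_forall fun _ _ h' => absurd hw' h'
      rcases h3 w hw hw' with h5 | ⟨c, hc, h5⟩
      · have := evpos (f := fun s => FF x y0 η κ i j B C E F s w) (by
          unfold FF DD area; fun_prop) (by
          simp only [FF]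
          simp only [ne_eq, OfNat.ofNat_ne_zero, not_false_eq_true, zero_pow, mul_zero, zero_mul,
            add_zero]
          positivity)
        filter_upwards [this] with s hs _ _ using hs
      · filter_upwards [self_mem_nhdsWithin] with s hs _ _
        have hs' : (0 : ℝ) < s := hs
        exact lt_of_lt_of_le (by positivity) (h5 s)
    filter_upwards [h4] with s hs _
    exact ⟨i, j, B, C, E, F, h1 s, h2 s, hs⟩
  obtain ⟨s, kV, kE⟩ := (cV.and cE).exists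
  refine polytopal_of_cert H (pos x y0 η κ s) (hspan s) ?_ ?_ ?_
  · intro u
    obtain ⟨a, b, hab⟩ := VV_form x y0 η κ u s
    refine ⟨a, b, ?_, fun w hw => ?_⟩
    · rw [hab]; ring
    · rw [hab]
      have h1 := kV u w hw
      have h2 : 0 ≤ κ w := by rcases hκ w with h | h <;> rw [h] <;> norm_num
      have h3 : κ u ≤ 1 := by rcases hκ u with h | h <;> rw [h] <;> norm_num
      nlinarith [sq_nonneg ((y0 w + s * η w) - (y0 u + s * η u)), sq_nonneg s,
        mul_nonneg (show 0 ≤ κ w - κ u + 1 by linarith) (sq_nonneg s)]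
  · intro u v huv
    obtain ⟨i, j, B, C, E, F, h1, h2, h3⟩ := kE u v huv
    obtain ⟨a, b, hab⟩ := FF_form x y0 η κ i j B C E F s
    refine ⟨a, b, ?_, ?_, fun w hwu hwv => ?_⟩
    · rw [hab]; exact h1
    · rw [hab]; exact h2
    · rw [hab]; exact h3 w hwu hwv
  · intro u v huv hadj
    obtain ⟨a, b, c, w, h1, h2, h3, h4, h5, h6⟩ := hN u v huv hadj
    exact ⟨a, b, c, w, h1, h2, h3, h4, h5, h6 s⟩

end

end Pool.Agent.U410.DJ
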