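import Pool.Agent.U410.DJ.Main

set_option autoImplicit false

namespace Pool.Agent.U410.DJ

open Set Filter Topology
open Pool.Agent.Results.MP_2da123_co.DimSix

/-- a quadratic polynomial vanishing at six suitable points of a triangle is zero -/
theorem six_points (p0 q0 p1 q1 p2 q2 : ℝ) (hD : area p0 q0 p1 q1 p2 q2 ≠ 0)
    (a0 a1 a2 a3 a4 b : ℝ) (f : ℝ → ℝ → ℝ)
    (hf : ∀ x y, f x y = a0 * x + a1 * y + a2 * x ^ 2 + a3 * (x * y) + a4 * y ^ 2 + b)
    (h0 : f p0 q0 = 0) (h1 : f p1 q1 = 0) (h2 : f p2 q2 = 0)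
    (h3 : f ((p0 + p1 + p2) / 3) ((q0 + q1 + q2) / 3) = 0)
    (h4 : f ((p0 + 2 * p1 + 3 * p2) / 6) ((q0 + 2 * q1 + 3 * q2) / 6) = 0)
    (h5 : f ((p0 - p1 + 2 * p2) / 2) ((q0 - q1 + 2 * q2) / 2) = 0) :
    a0 = 0 ∧ a1 = 0 ∧ a2 = 0 ∧ a3 = 0 ∧ a4 = 0 := by
  obtain ⟨u, rfl⟩ : ∃ u, p1 = p0 + u := ⟨p1 - p0, by ring⟩
  obtain ⟨u', rfl⟩ : ∃ u', q1 = q0 + u' := ⟨q1 - q0, by ring⟩
  obtain ⟨v, rfl⟩ : ∃ v, p2 = p0 + v := ⟨p2 - p0, by ring⟩
  obtain ⟨v', rfl⟩ : ∃ v', q2 = q0 + v' := ⟨q2 - q0, by ring⟩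
  obtain ⟨D, hDD⟩ : ∃ D, D = u * v' - v * u' := ⟨_, rfl⟩
  have hD' : D ≠ 0 := by
    have : area p0 q0 (p0 + u) (q0 + u') (p0 + v) (q0 + v') = D := by
      rw [hDD]; unfold area; ring
    rw [← this]
    exact hD
  obtain ⟨A, hA⟩ : ∃ A, A = a0 + 2 * a2 * p0 + a3 * q0 := ⟨_, rfl⟩
  obtain ⟨B, hB⟩ : ∃ B, B = a1 + a3 * p0 + 2 * a4 * q0 := ⟨_, rfl⟩
  obtain ⟨Lu, hLu⟩ : ∃ Lu, Lu = A * u + B * u' := ⟨_, rfl⟩
  obtain ⟨Lv, hLv⟩ : ∃ Lv, Lv = A * v + B * v' := ⟨_, rfl⟩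
  obtain ⟨Qu, hQu⟩ : ∃ Qu, Qu = a2 * u ^ 2 + a3 * (u * u') + a4 * u' ^ 2 := ⟨_, rfl⟩
  obtain ⟨Qv, hQv⟩ : ∃ Qv, Qv = a2 * v ^ 2 + a3 * (v * v') + a4 * v' ^ 2 := ⟨_, rfl⟩
  obtain ⟨Bv, hBv⟩ : ∃ Bv, Bv = 2 * a2 * u * v + a3 * (u * v' + v * u') + 2 * a4 * u' * v' :=
    ⟨_, rfl⟩
  rw [hf] at h0 h1 h2 h3 h4 h5
  have k1 : Lu + Qu = 0 := by
    rw [hLu, hQu, hA, hB]
    linear_combination h1 - h0
  have k2 : Lv + Qv = 0 := by
    rw [hLv, hQv, hA, hB]
    linear_combination h2 - h0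
  have k3 : (Lu + Lv) / 3 + (Qu + Qv + Bv) / 9 = 0 := by
    rw [hLu, hLv, hQu, hQv, hBv, hA, hB]
    linear_combination h3 - h0
  have k4 : Lu / 3 + Lv / 2 + Qu / 9 + Qv / 4 + Bv / 6 = 0 := by
    rw [hLu, hLv, hQu, hQv, hBv, hA, hB]
    linear_combination h4 - h0
  have k5 : -Lu / 2 + Lv + Qu / 4 + Qv - Bv / 2 = 0 := by
    rw [hLu, hLv, hQu, hQv, hBv, hA, hB]
    linear_combination h5 - h0
  have m1 : Qu = 0 := by linarith
  have m2 : Qv = 0 := by linarith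
  have m3 : Bv = 0 := by linarith
  have m4 : Lu = 0 := by linarith
  have m5 : Lv = 0 := by linarith
  have D2 : D ^ 2 ≠ 0 := pow_ne_zero 2 hD'
  have z2 : a2 = 0 := by
    apply (mul_eq_zero.1 (?_ : D ^ 2 * a2 = 0)).resolve_left D2
    have : D ^ 2 * a2 = v' ^ 2 * Qu - v' * u' * Bv + u' ^ 2 * Qv := by
      rw [hDD, hQu, hQv, hBv]; ring
    rw [this, m1, m2, m3]; ring
  have z4 : a4 = 0 := by
    apply (mul_eq_zero.1 (?_ : D ^ 2 * a4 = 0)).resolve_left D2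
    have : D ^ 2 * a4 = v ^ 2 * Qu - v * u * Bv + u ^ 2 * Qv := by
      rw [hDD, hQu, hQv, hBv]; ring
    rw [this, m1, m2, m3]; ring
  have z3 : a3 = 0 := by
    apply (mul_eq_zero.1 (?_ : D ^ 2 * a3 = 0)).resolve_left D2
    have : D ^ 2 * a3 = -2 * v' * v * Qu + (v' * u + u' * v) * Bv - 2 * u' * u * Qv := by
      rw [hDD, hQu, hQv, hBv]; ring
    rw [this, m1, m2, m3]; ring
  have zA : A = 0 := by
    apply (mul_eq_zero.1 (?_ : D * A = 0)).resolve_left hD'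
    have : D * A = v' * Lu - u' * Lv := by rw [hDD, hLu, hLv]; ring
    rw [this, m4, m5]; ring
  have zB : B = 0 := by
    apply (mul_eq_zero.1 (?_ : D * B = 0)).resolve_left hD'
    have : D * B = u * Lv - v * Lu := by rw [hDD, hLu, hLv]; ring
    rw [this, m4, m5]; ring
  refine ⟨?_, ?_, z2, z3, z4⟩
  · rw [hA, z2, z3] at zA; linarith
  · rw [hB, z3, z4] at zB; linarith

section
variable {V : Type} [Fintype V] {G : SimpleGraph V} {o : V → ℕ}
variable {X Y : Module.Dual ℝ (V ⊕ Fin 3 → ℝ)}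

theorem span_ok (hg : Gen G o X Y) (s : ℝ) (a : Fin 5 → ℝ) (b : ℝ)
    (h : ∀ u : UU G o, ∑ k, a k * pos (xx X) (xx Y) off typ s u k + b = 0) : a = 0 := by
  have hpt : ∀ r : Fin 6, (fun x y => a 0 * x + a 1 * y + a 2 * x ^ 2 + a 3 * (x * y) +
      a 4 * y ^ 2 + b) (xx X (Sum.inr (Sum.inr r) : UU G o))
      (xx Y (Sum.inr (Sum.inr r) : UU G o)) = 0 := by
    intro r
    have := h (Sum.inr (Sum.inr r))
    simp only [Fin.sum_univ_five, pos, pt, off, typ, Matrix.cons_val_zero, Matrix.cons_val_one,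
      Matrix.cons_val] at this
    simp only
    linear_combination this
  have hD : area (xx X (Sum.inr (Sum.inr 0) : UU G o)) (xx Y (Sum.inr (Sum.inr 0) : UU G o))
      (xx X (Sum.inr (Sum.inr 1) : UU G o)) (xx Y (Sum.inr (Sum.inr 1) : UU G o))
      (xx X (Sum.inr (Sum.inr 2) : UU G o)) (xx Y (Sum.inr (Sum.inr 2) : UU G o)) ≠ 0 := by
    refine hg.2 _ _ _ (by simp) (ind_FFF 0 1 2 (by decide) (by decide) (by decide))
  have h3 := hpt 3
  have h4 := hpt 4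
  have h5 := hpt 5
  rw [xx_free X 3, xx_free Y 3] at h3
  rw [xx_free X 4, xx_free Y 4] at h4
  rw [xx_free X 5, xx_free Y 5] at h5
  have key := six_points _ _ _ _ _ _ hD (a 0) (a 1) (a 2) (a 3) (a 4) b _
    (fun x y => rfl) (hpt 0) (hpt 1) (hpt 2)
    (by
      rw [← h3]
      congr 1 <;> simp [Q, Qz, Wz] <;> ring)
    (by
      rw [← h4]
      congr 1 <;> simp [Q, Qz, Wz] <;> ring)
    (by
      rw [← h5]
      congr 1 <;> simp [Q, Qz, Wz] <;> ring)
  obtain ⟨k0, k1, k2, k3, k4⟩ := key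
  funext k
  fin_cases k <;> simp only [Pi.zero_apply] <;> assumption

/-- the join on the vertex set `UU` -/
def HH (G : SimpleGraph V) (o : V → ℕ) : SimpleGraph (UU G o) where
  Adj x y := x ≠ y ∧ ∀ u v, x = Sum.inl u → y = Sum.inl v → G.Adj u v
  symm := ⟨fun _ _ h => ⟨h.1.symm, fun u v hx hy => (h.2 v u hy hx).symm⟩⟩
  loopless := ⟨fun _ h => h.1 rfl⟩

theorem edge_VC (hg : Gen G o X Y) (a : V) (t : Clu G o) :
    EdgeOK X Y (Sum.inl a : UU G o) (Sum.inr (Sum.inl t)) := by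
  by_cases h1 : a = t.i
  · subst h1; exact edge_sp_i hg t
  by_cases h2 : a = t.j
  · subst h2; exact edge_sp_j hg t
  refine edge_gen hg (by simp) fun w hw hw' => ?_
  rcases w with c | t' | r
  · have hac : a ≠ c := fun h => hw (by rw [h])
    exact (ind_VVC t hac fun h => by
      rcases h.1 with h | h
      · exact h1 h
      · exact h2 h).rot.rot.swap
  · exact ind_VCC t t' (fun h => hw' (by rw [h])) h1 h2
  · exact priv_F (by simp) r rfl rfl

theorem edge_VF (hg : Gen G o X Y) (a : V) (r : Fin 6) :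
    EdgeOK X Y (Sum.inl a : UU G o) (Sum.inr (Sum.inr r)) := by
  refine edge_gen hg (by simp) fun w hw hw' => ?_
  rcases w with c | t' | r'
  · have h1 : (Sum.inl c : UU G o) ≠ Sum.inl a := hw
    exact (priv_F h1 r rfl rfl).rot
  · have h1 : (Sum.inr (Sum.inl t') : UU G o) ≠ Sum.inl a := hw
    exact (priv_F h1 r rfl rfl).rot
  · have h1 : r ≠ r' := fun h => hw' (by rw [h])
    exact (ind_NFF (Sum.inl a : UU G o) r r' h1 a (by simp [bV])).rot.rot

theorem edge_VV (hg : Gen G o X Y) (a b : V) (h : G.Adj a b) :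
    EdgeOK X Y (Sum.inl a : UU G o) (Sum.inl b) := by
  have hab : a ≠ b := h.ne
  refine edge_gen hg (fun h => hab (Sum.inl_injective h)) fun w hw hw' => ?_
  rcases w with c | t' | r'
  · exact ind_VVV hab (fun h => hw (by rw [h])) (fun h => hw' (by rw [h]))
  · refine ind_VVC t' hab fun h1 => ?_
    have h2 := t'.nadj
    rcases h1 with ⟨h3 | h3, h4 | h4⟩
    · exact hab (h3.trans h4.symm)
    · rw [h3, h4] at h; exact h2 h
    · rw [h3, h4] at h; exact h2 h.symm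
    · exact hab (h3.trans h4.symm)
  · exact priv_F (fun h => hab (Sum.inl_injective h)) r' rfl rfl

theorem dx_same (hg : Gen G o X Y) (t1 t2 t3 : Clu G o) (h12 : t1 ≠ t2) (h13 : t1 ≠ t3)
    (h23 : t2 ≠ t3) (h : t1.i = t2.i ∧ t1.j = t2.j ∧ t1.i = t3.i ∧ t1.j = t3.j) :
    ∃ c : ℝ, c ≠ 0 ∧ ∀ s, DX X Y s (Sum.inr (Sum.inl t1) : UU G o) (Sum.inr (Sum.inl t2))
      (Sum.inr (Sum.inl t3)) = s * c := by
  obtain ⟨a1, a2, a3, a4⟩ := h
  have hx : xx X (Sum.inl t1.j : UU G o) - xx X (Sum.inl t1.i : UU G o) ≠ 0 :=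
    sub_ne_zero.2 (hg.1 _ _ fun h => t1.ne (Sum.inl_injective h).symm)
  have k12 : t1.k ≠ t2.k := fun h => h12 (Clu.ext' a1 a2 h)
  have k13 : t1.k ≠ t3.k := fun h => h13 (Clu.ext' a3 a4 h)
  have k23 : t2.k ≠ t3.k := fun h => h23 (Clu.ext' (a1.symm.trans a3) (a2.symm.trans a4) h)
  refine ⟨(xx X (Sum.inl t1.j : UU G o) - xx X (Sum.inl t1.i : UU G o)) *
    ((tau t2.k - tau t1.k) * (etc t3.k - etc t1.k) - (tau t3.k - tau t1.k) *
      (etc t2.k - etc t1.k)), mul_ne_zero hx ?_, fun s => ?_⟩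
  · generalize t1.k = k1 at *
    generalize t2.k = k2 at *
    generalize t3.k = k3 at *
    fin_cases k1 <;> fin_cases k2 <;> fin_cases k3 <;> simp [tau, etc] at k12 k13 k23 ⊢ <;>
      norm_num
  · have hx2 := xx_clu X t2
    have hy2 := xx_clu Y t2
    have hx3 := xx_clu X t3
    have hy3 := xx_clu Y t3
    rw [← a1, ← a2] at hx2 hy2
    rw [← a3, ← a4] at hx3 hy3
    simp only [DX, DD, area, xx_clu X t1, xx_clu Y t1, hx2, hx3, hy2, hy3, off]
    ring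

theorem edge_CC (hg : Gen G o X Y) (t1 t2 : Clu G o) (h12 : t1 ≠ t2) :
    EdgeOK X Y (Sum.inr (Sum.inl t1) : UU G o) (Sum.inr (Sum.inl t2)) := by
  refine edge_ww hg (fun h => h12 (Sum.inl_injective h)) fun w hw hw' => ?_
  rcases w with t3 | r
  · have h13 : t1 ≠ t3 := fun h => hw (by rw [h])
    have h23 : t2 ≠ t3 := fun h => hw' (by rw [h])
    by_cases h : t1.i = t2.i ∧ t1.j = t2.j ∧ t1.i = t3.i ∧ t1.j = t3.j
    · exact Or.inr (dx_same hg t1 t2 t3 h12 h13 h23 h)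
    · exact Or.inl (ind_CCC t1 t2 t3 h12 h13 h23 h)
  · exact Or.inl (priv_F (fun h => h12 (Sum.inl_injective (Sum.inr_injective h))) r rfl rfl)

theorem edge_CF (hg : Gen G o X Y) (t : Clu G o) (r : Fin 6) :
    EdgeOK X Y (Sum.inr (Sum.inl t) : UU G o) (Sum.inr (Sum.inr r)) := by
  refine edge_ww hg (by simp) fun w hw hw' => Or.inl ?_
  rcases w with t' | r'
  · have h1 : (Sum.inr (Sum.inl t') : UU G o) ≠ Sum.inr (Sum.inl t) := fun h =>
      hw (Sum.inr_injective h)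
    exact (priv_F h1 r rfl rfl).rot
  · have h1 : r ≠ r' := fun h => hw' (by rw [h])
    exact (ind_NFF (Sum.inr (Sum.inl t) : UU G o) r r' h1 t.i
      (bV_clu_ne t _ (Or.inl rfl))).rot.rot

theorem edge_FF (hg : Gen G o X Y) (r r' : Fin 6) (h : r ≠ r') :
    EdgeOK X Y (Sum.inr (Sum.inr r) : UU G o) (Sum.inr (Sum.inr r')) := by
  refine edge_ww hg (fun h' => h (Sum.inr_injective h')) fun w hw hw' => Or.inl ?_
  rcases w with t | r''
  · exact ind_NFF (Sum.inr (Sum.inl t) : UU G o) r r' h t.i (bV_clu_ne t _ (Or.inl rfl))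
  · exact ind_FFF r r' r'' h (fun h => hw (by rw [h])) (fun h => hw' (by rw [h]))

theorem edge_all (hg : Gen G o X Y) (u v : UU G o) (h : (HH G o).Adj u v) : EdgeOK X Y u v := by
  obtain ⟨hne, hadj⟩ := h
  rcases u with a | t | r <;> rcases v with b | t' | r'
  · exact edge_VV hg a b (hadj a b rfl rfl)
  · exact edge_VC hg a t'
  · exact edge_VF hg a r'
  · exact (edge_VC hg b t).symm
  · exact edge_CC hg t t' fun h => hne (by rw [h])
  · exact edge_CF hg t r'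
  · exact (edge_VF hg b r).symm
  · exact (edge_CF hg t' r).symm
  · exact edge_FF hg r r' fun h => hne (by rw [h])

/-- the convex relation of a non-adjacent pair -/
theorem nonedge_rel (s : ℝ) (i j : V) (h : o i < o j) (hn : ¬ G.Adj i j) :
    (2 / 3 : ℝ) • pos (xx X) (xx Y) off typ s (Sum.inl i : UU G o) +
      (1 / 3 : ℝ) • pos (xx X) (xx Y) off typ s (Sum.inl j : UU G o) =
    (5 / 90 : ℝ) • pos (xx X) (xx Y) off typ s
        (Sum.inr (Sum.inl ⟨(i, j, 0), h, hn⟩) : UU G o) +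
      (4 / 90 : ℝ) • pos (xx X) (xx Y) off typ s
        (Sum.inr (Sum.inl ⟨(i, j, 1), h, hn⟩) : UU G o) +
      (81 / 90 : ℝ) • pos (xx X) (xx Y) off typ s
        (Sum.inr (Sum.inl ⟨(i, j, 2), h, hn⟩) : UU G o) := by
  have e : ∀ (Z : Module.Dual ℝ (V ⊕ Fin 3 → ℝ)) (k : Fin 3),
      xx Z (Sum.inr (Sum.inl ⟨(i, j, k), h, hn⟩) : UU G o) =
      (1 - tau k) * xx Z (Sum.inl i : UU G o) + tau k * xx Z (Sum.inl j : UU G o) := fun Z k =>
    xx_clu Z ⟨(i, j, k), h, hn⟩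
  ext c
  fin_cases c <;>
  simp only [pos, pt, e, off, typ, Clu.k, PiLp.add_apply, PiLp.smul_apply, smul_eq_mul,
    Fin.zero_eta, Fin.mk_one, Fin.reduceFinMk, Matrix.cons_val_zero, Matrix.cons_val_one,
    Matrix.cons_val] <;>
  simp only [tau, etc, Matrix.cons_val_zero, Matrix.cons_val_one, Matrix.cons_val] <;> ring

theorem nonedge_all (u v : UU G o) (huv : u ≠ v) (hadj : ¬ (HH G o).Adj u v)
    (ho : Function.Injective o) : ∃ (a b : ℝ) (c : UU G o → ℝ) (w : UU G o), w ≠ u ∧ w ≠ v ∧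
      (∀ x, 0 ≤ c x) ∧ 0 < c w ∧ ∑ x, c x = a + b ∧
      ∀ s, a • pos (xx X) (xx Y) off typ s u + b • pos (xx X) (xx Y) off typ s v =
        ∑ z, c z • pos (xx X) (xx Y) off typ s z := by
  classical
  have main : ∀ i j : V, ∀ (h : o i < o j) (hn : ¬ G.Adj i j),
      ∃ (c : UU G o → ℝ) (t : Clu G o), (∀ x, 0 ≤ c x) ∧ 0 < c (Sum.inr (Sum.inl t)) ∧
      ∑ x, c x = 2 / 3 + 1 / 3 ∧
      ∀ s, (2 / 3 : ℝ) • pos (xx X) (xx Y) off typ s (Sum.inl i : UU G o) +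
        (1 / 3 : ℝ) • pos (xx X) (xx Y) off typ s (Sum.inl j : UU G o) =
        ∑ z, c z • pos (xx X) (xx Y) off typ s z := by
    intro i j h hn
    let z0 : UU G o := Sum.inr (Sum.inl ⟨(i, j, 0), h, hn⟩)
    let z1 : UU G o := Sum.inr (Sum.inl ⟨(i, j, 1), h, hn⟩)
    let z2 : UU G o := Sum.inr (Sum.inl ⟨(i, j, 2), h, hn⟩)
    refine ⟨fun z => (if z = z0 then 5 / 90 else 0) + (if z = z1 then 4 / 90 else 0) +
      (if z = z2 then 81 / 90 else 0), ⟨(i, j, 2), h, hn⟩, fun x => ?_, ?_, ?_, fun s => ?_⟩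
    · have h1 : (0 : ℝ) ≤ if x = z0 then 5 / 90 else 0 := by split_ifs <;> norm_num
      have h2 : (0 : ℝ) ≤ if x = z1 then 4 / 90 else 0 := by split_ifs <;> norm_num
      have h3 : (0 : ℝ) ≤ if x = z2 then 81 / 90 else 0 := by split_ifs <;> norm_num
      exact add_nonneg (add_nonneg h1 h2) h3
    · have h1 : (0 : ℝ) ≤ if (Sum.inr (Sum.inl ⟨(i, j, 2), h, hn⟩) : UU G o) = z0
        then 5 / 90 else 0 := by split_ifs <;> norm_num
      have h2 : (0 : ℝ) ≤ if (Sum.inr (Sum.inl ⟨(i, j, 2), h, hn⟩) : UU G o) = z1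
        then 4 / 90 else 0 := by split_ifs <;> norm_num
      have h3 : (0 : ℝ) < if (Sum.inr (Sum.inl ⟨(i, j, 2), h, hn⟩) : UU G o) = z2
        then 81 / 90 else 0 := by rw [if_pos rfl]; norm_num
      exact add_pos_of_nonneg_of_pos (add_nonneg h1 h2) h3
    · simp only [Finset.sum_add_distrib, Finset.sum_ite_eq', Finset.mem_univ, if_true]
      norm_num
    · simp only [add_smul, ite_smul, zero_smul, Finset.sum_add_distrib, Finset.sum_ite_eq',
        Finset.mem_univ, if_true]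
      exact nonedge_rel s i j h hn
  have hcase : ∃ a b : V, u = Sum.inl a ∧ v = Sum.inl b ∧ ¬ G.Adj a b := by
    by_contra hcon
    push Not at hcon
    exact hadj ⟨huv, fun a b ha hb => hcon a b ha hb⟩
  obtain ⟨a, b, rfl, rfl, hab⟩ := hcase
  have hne : a ≠ b := fun h => huv (by rw [h])
  have hone : o a ≠ o b := fun h => hne (ho h)
  rcases lt_or_gt_of_ne hone with h | h
  · obtain ⟨c, t, h1, h2, h3, h4⟩ := main a b h hab
    exact ⟨2 / 3, 1 / 3, c, _, by simp, by simp, h1, h2, h3, h4⟩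
  · obtain ⟨c, t, h1, h2, h3, h4⟩ := main b a h (fun h => hab h.symm)
    refine ⟨1 / 3, 2 / 3, c, _, by simp, by simp, h1, h2, by rw [h3]; ring, fun s => ?_⟩
    rw [← h4, add_comm]

end

theorem polytopal_five {V : Type} [Fintype V] (G : SimpleGraph V) :
    ∃ n ≥ 1, IsPolytopal 5 (joinComplete G n) := by
  classical
  let e := Fintype.equivFin V
  let o : V → ℕ := fun v => (e v).val
  have ho : Function.Injective o := fun a b h => e.injective (Fin.ext h)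
  obtain ⟨X, Y, hX, hY⟩ := exists_generic (G := G) (o := o)
  have hg : Gen G o X Y := ⟨hX, hY⟩
  have h1 : IsPolytopal 5 (HH G o) := by
    refine core (xx X) (xx Y) off typ (HH G o) ?_ ?_ (span_ok hg) (edge_all hg)
      (fun u v huv hadj => nonedge_all u v huv hadj ho)
    · intro u w h
      by_contra hne
      exact hX u w hne h
    · intro u
      rcases u with _ | _
      · exact Or.inr rfl
      · exact Or.inl rfl
  let f := Fintype.equivFin (Clu G o ⊕ Fin 6)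
  refine ⟨Fintype.card (Clu G o ⊕ Fin 6), ?_, ?_⟩
  · rw [Fintype.card_sum, Fintype.card_fin]; omega
  · refine polytopal_of_iso (Equiv.sumCongr (Equiv.refl V) f.symm) ?_ h1
    intro a b
    constructor
    · rintro ⟨hne, h⟩
      refine ⟨fun h' => hne ((Equiv.sumCongr (Equiv.refl V) f.symm).injective h'),
        fun u v hu hv => ?_⟩
      rcases a with a | a
      · rcases b with b | b
        · simp only [Equiv.sumCongr_apply, Equiv.coe_refl, Sum.map_inl, id_eq,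
            Sum.inl.injEq] at hu hv
          subst hu; subst hv
          exact h a b rfl rfl
        · simp at hv
      · simp at hu
    · rintro ⟨hne, h⟩
      refine ⟨fun h' => hne (by rw [h']), fun u v hu hv => ?_⟩
      subst hu; subst hv
      exact h u v (by simp) (by simp)

end Pool.Agent.U410.DJ
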