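import Pool.Agent.U410.DJ.Core

set_option autoImplicit false

namespace Pool.Agent.U410.DJ

open Set Filter Topology

/-- linear independence of three real functions -/
def Ind3 {Z : Type} (a b c : Z → ℝ) : Prop :=
  ∀ l m n : ℝ, (∀ z, l * a z + m * b z + n * c z = 0) → l = 0 ∧ m = 0 ∧ n = 0

theorem Ind3.rot {Z : Type} {a b c : Z → ℝ} (h : Ind3 a b c) : Ind3 b c a := by
  intro l m n hz
  obtain ⟨h1, h2, h3⟩ := h n l m fun z => by linear_combination hz z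
  exact ⟨h2, h3, h1⟩

theorem Ind3.swap {Z : Type} {a b c : Z → ℝ} (h : Ind3 a b c) : Ind3 b a c := by
  intro l m n hz
  obtain ⟨h1, h2, h3⟩ := h m l n fun z => by linear_combination hz z
  exact ⟨h2, h1, h3⟩

theorem ind3_priv {Z : Type} [Fintype Z] {a b c : Z → ℝ} (ha : ∑ z, a z = 1) (hb : ∑ z, b z = 1)
    (hab : a ≠ b) (z : Z) (hc : c z ≠ 0) (h1 : a z = 0) (h2 : b z = 0) : Ind3 a b c := by
  intro l m n hz
  have hn : n = 0 := by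
    have := hz z
    rw [h1, h2, mul_zero, mul_zero, zero_add, zero_add] at this
    exact (mul_eq_zero.1 this).resolve_right hc
  subst hn
  have hs : l + m = 0 := by
    have : ∑ z, (l * a z + m * b z + 0 * c z) = 0 := Finset.sum_eq_zero fun z _ => hz z
    simp only [zero_mul, add_zero, Finset.sum_add_distrib, ← Finset.mul_sum, ha, hb, mul_one]
      at this
    exact this
  obtain ⟨w, hw⟩ := Function.ne_iff.1 hab
  have h3 : l * (a w - b w) = 0 := by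
    have := hz w
    have h4 : m = -l := by linarith
    rw [h4] at this
    linarith
  have hl : l = 0 := (mul_eq_zero.1 h3).resolve_right (sub_ne_zero.2 hw)
  exact ⟨hl, by linarith, rfl⟩

noncomputable def tau : Fin 3 → ℝ := ![-1, 2, 1/3]
noncomputable def etc : Fin 3 → ℝ := ![3, 3, -1/3]

def Qz : Fin 6 → Fin 3 → ℤ := ![![1, 0, 0], ![0, 1, 0], ![0, 0, 1], ![1, 1, 1], ![1, 2, 3],
  ![1, -1, 2]]

def Wz : Fin 6 → ℤ := ![1, 1, 1, 3, 6, 2]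

noncomputable def Q (r : Fin 6) (c : Fin 3) : ℝ := (Qz r c : ℝ) / (Wz r : ℝ)

theorem Wz_ne (r : Fin 6) : (Wz r : ℝ) ≠ 0 := by
  have : Wz r ≠ 0 := by revert r; decide
  exact_mod_cast this

theorem Q_sum (r : Fin 6) : Q r 0 + Q r 1 + Q r 2 = 1 := by
  have h : Qz r 0 + Qz r 1 + Qz r 2 = Wz r := by revert r; decide
  have h' : (Qz r 0 : ℝ) + Qz r 1 + Qz r 2 = Wz r := by exact_mod_cast h
  have := Wz_ne r
  unfold Q
  field_simp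
  linarith

def detZ (r s t : Fin 6) : ℤ :=
  Qz r 0 * (Qz s 1 * Qz t 2 - Qz s 2 * Qz t 1) - Qz r 1 * (Qz s 0 * Qz t 2 - Qz s 2 * Qz t 0) +
    Qz r 2 * (Qz s 0 * Qz t 1 - Qz s 1 * Qz t 0)

theorem detZ_ne : ∀ r s t : Fin 6, r ≠ s → r ≠ t → s ≠ t → detZ r s t ≠ 0 := by decide

theorem ind3_Q (r s t : Fin 6) (h1 : r ≠ s) (h2 : r ≠ t) (h3 : s ≠ t) (l m n : ℝ)
    (h : ∀ c, l * Q r c + m * Q s c + n * Q t c = 0) : l = 0 ∧ m = 0 ∧ n = 0 := by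
  have hd : (detZ r s t : ℝ) ≠ 0 := by exact_mod_cast detZ_ne r s t h1 h2 h3
  have hdet : (detZ r s t : ℝ) = Qz r 0 * (Qz s 1 * Qz t 2 - Qz s 2 * Qz t 1) -
    Qz r 1 * (Qz s 0 * Qz t 2 - Qz s 2 * Qz t 0) +
    Qz r 2 * (Qz s 0 * Qz t 1 - Qz s 1 * Qz t 0) := by
    unfold detZ; push_cast; ring
  rw [hdet] at hd
  have e0 := h 0
  have e1 := h 1
  have e2 := h 2
  have wr := Wz_ne r
  have ws := Wz_ne s
  have wt := Wz_ne t
  unfold Q at e0 e1 e2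
  set L := l / (Wz r : ℝ) with hL
  set M := m / (Wz s : ℝ) with hM
  set N := n / (Wz t : ℝ) with hN
  have hl : l = L * Wz r := by rw [hL]; field_simp
  have hm : m = M * Wz s := by rw [hM]; field_simp
  have hn : n = N * Wz t := by rw [hN]; field_simp
  rw [hl, hm, hn] at e0 e1 e2
  have f : ∀ a b c p q u : ℝ, p ≠ 0 → q ≠ 0 → u ≠ 0 →
      L * p * (a / p) + M * q * (b / q) + N * u * (c / u) = L * a + M * b + N * c := by
    intro a b c p q u hp hq hu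
    field_simp
  rw [f _ _ _ _ _ _ wr ws wt] at e0 e1 e2
  have hL0 : L = 0 := by
    apply (mul_eq_zero.1 (?_ : L * (Qz r 0 * (Qz s 1 * Qz t 2 - Qz s 2 * Qz t 1) -
      Qz r 1 * (Qz s 0 * Qz t 2 - Qz s 2 * Qz t 0) +
      Qz r 2 * (Qz s 0 * Qz t 1 - Qz s 1 * Qz t 0) : ℝ) = 0)).resolve_right hd
    linear_combination (Qz s 1 * Qz t 2 - Qz s 2 * Qz t 1 : ℝ) * e0 -
      (Qz s 0 * Qz t 2 - Qz s 2 * Qz t 0 : ℝ) * e1 + (Qz s 0 * Qz t 1 - Qz s 1 * Qz t 0 : ℝ) * e2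
  have hM0 : M = 0 := by
    apply (mul_eq_zero.1 (?_ : M * (Qz r 0 * (Qz s 1 * Qz t 2 - Qz s 2 * Qz t 1) -
      Qz r 1 * (Qz s 0 * Qz t 2 - Qz s 2 * Qz t 0) +
      Qz r 2 * (Qz s 0 * Qz t 1 - Qz s 1 * Qz t 0) : ℝ) = 0)).resolve_right hd
    linear_combination (-(Qz r 1 * Qz t 2 - Qz r 2 * Qz t 1 : ℝ)) * e0 +
      (Qz r 0 * Qz t 2 - Qz r 2 * Qz t 0 : ℝ) * e1 - (Qz r 0 * Qz t 1 - Qz r 1 * Qz t 0 : ℝ) * e2
  have hN0 : N = 0 := by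
    apply (mul_eq_zero.1 (?_ : N * (Qz r 0 * (Qz s 1 * Qz t 2 - Qz s 2 * Qz t 1) -
      Qz r 1 * (Qz s 0 * Qz t 2 - Qz s 2 * Qz t 0) +
      Qz r 2 * (Qz s 0 * Qz t 1 - Qz s 1 * Qz t 0) : ℝ) = 0)).resolve_right hd
    linear_combination (Qz r 1 * Qz s 2 - Qz r 2 * Qz s 1 : ℝ) * e0 -
      (Qz r 0 * Qz s 2 - Qz r 2 * Qz s 0 : ℝ) * e1 + (Qz r 0 * Qz s 1 - Qz r 1 * Qz s 0 : ℝ) * e2
  rw [hl, hm, hn, hL0, hM0, hN0]
  simp

theorem tau_ne (k : Fin 3) : tau k ≠ 0 ∧ 1 - tau k ≠ 0 := by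
  fin_cases k <;> simp [tau] <;> norm_num

theorem tau_inj : Function.Injective tau := by
  intro k l h
  fin_cases k <;> fin_cases l <;> simp [tau] at h ⊢ <;> norm_num at h

/-- The two barycentric weights of a cluster point, in some order. -/
def Wt (p q : ℝ) : Prop :=
  (p = 2 ∧ q = -1) ∨ (p = -1 ∧ q = 2) ∨ (p = 2/3 ∧ q = 1/3) ∨ (p = 1/3 ∧ q = 2/3)

theorem wt_tau (k : Fin 3) : Wt (1 - tau k) (tau k) := by
  fin_cases k <;> simp [tau, Wt] <;> norm_num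

theorem wt_swap {p q : ℝ} (h : Wt p q) : Wt q p := by
  unfold Wt at *
  tauto

/-- The three points on the sides of a triangle are never collinear (Menelaus). -/
theorem menelaus {a1 a2 c1 c2 e1 e2 l m n : ℝ} (ha : Wt a1 a2) (hc : Wt c1 c2) (he : Wt e1 e2)
    (h1 : l * a1 + m * c1 = 0) (h2 : l * a2 + n * e1 = 0) (h3 : m * c2 + n * e2 = 0) :
    l = 0 ∧ m = 0 ∧ n = 0 := by
  unfold Wt at *
  rcases ha with ⟨rfl, rfl⟩ | ⟨rfl, rfl⟩ | ⟨rfl, rfl⟩ | ⟨rfl, rfl⟩ <;>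
  rcases hc with ⟨rfl, rfl⟩ | ⟨rfl, rfl⟩ | ⟨rfl, rfl⟩ | ⟨rfl, rfl⟩ <;>
  rcases he with ⟨rfl, rfl⟩ | ⟨rfl, rfl⟩ | ⟨rfl, rfl⟩ | ⟨rfl, rfl⟩ <;>
  refine ⟨?_, ?_, ?_⟩ <;> linarith

end Pool.Agent.U410.DJ
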