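import Pool.Agent.U410.DJ.Config

set_option autoImplicit false

namespace Pool.Agent.U410.DJ

open Set Filter Topology
open Pool.Agent.Results.MP_2da123_co.DimSix

section
variable {V : Type} {G : SimpleGraph V} {o : V → ℕ}

theorem bb_clu (t : Clu G o) : bb (Sum.inr (Sum.inl t) : UU G o) =
    (1 - tau t.k) • bb (Sum.inl t.i : UU G o) + tau t.k • bb (Sum.inl t.j : UU G o) := by
  classical
  funext z
  rcases z with z | c
  · simp [bb, bV]
  · simp [bb, bF]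

theorem bb_free (r : Fin 6) : bb (Sum.inr (Sum.inr r) : UU G o) =
    Q r 0 • bb (Sum.inr (Sum.inr 0) : UU G o) + Q r 1 • bb (Sum.inr (Sum.inr 1) : UU G o) +
      Q r 2 • bb (Sum.inr (Sum.inr 2) : UU G o) := by
  funext z
  rcases z with z | c
  · simp [bb, bV]
  · fin_cases c <;> simp [bb, bF, Q, Qz, Wz]

variable [Fintype V]

theorem exists_generic : ∃ X Y : Module.Dual ℝ (V ⊕ Fin 3 → ℝ),
    (∀ u w : UU G o, u ≠ w → X (bb u) ≠ X (bb w)) ∧
    (∀ u v w : UU G o, u ≠ v → Ind3 (bb u) (bb v) (bb w) →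
      area (X (bb u)) (Y (bb u)) (X (bb v)) (Y (bb v)) (X (bb w)) (Y (bb w)) ≠ 0) := by
  classical
  obtain ⟨X, hX⟩ := Module.exists_dual_forall_apply_ne_zero (K := ℝ)
    (M := V ⊕ Fin 3 → ℝ) (ι := {p : UU G o × UU G o // p.1 ≠ p.2})
    (fun p => bb p.1.1 - bb p.1.2) (fun p => sub_ne_zero.2 fun h => p.2 (bb_inj h))
  have hX' : ∀ u w : UU G o, u ≠ w → X (bb u) ≠ X (bb w) := by
    intro u w huw h
    apply hX ⟨(u, w), huw⟩
    rw [map_sub, h, sub_self]
  let S := {t : UU G o × UU G o × UU G o // t.1 ≠ t.2.1 ∧ Ind3 (bb t.1) (bb t.2.1) (bb t.2.2)}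
  let vec : S → (V ⊕ Fin 3 → ℝ) := fun t =>
    (X (bb t.1.2.1) - X (bb t.1.1)) • (bb t.1.2.2 - bb t.1.1) -
      (X (bb t.1.2.2) - X (bb t.1.1)) • (bb t.1.2.1 - bb t.1.1)
  have hvec : ∀ t : S, vec t ≠ 0 := by
    rintro ⟨⟨u, v, w⟩, huv, hind⟩ h0
    have h1 : ∀ z, (-(X (bb v) - X (bb u)) + (X (bb w) - X (bb u))) * bb u z +
        (-(X (bb w) - X (bb u))) * bb v z + (X (bb v) - X (bb u)) * bb w z = 0 := by
      intro z
      have := congrFun h0 z
      simp only [vec, Pi.sub_apply, Pi.smul_apply, smul_eq_mul, Pi.zero_apply] at this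
      linear_combination this
    have h2 := (hind _ _ _ h1).2.2
    exact hX' v u (Ne.symm huv) (sub_eq_zero.1 h2)
  obtain ⟨Y, hY⟩ := Module.exists_dual_forall_apply_ne_zero (K := ℝ) (ι := S) vec hvec
  refine ⟨X, Y, hX', fun u v w huv hind h => ?_⟩
  apply hY ⟨(u, v, w), huv, hind⟩
  simp only [vec, map_sub, map_smul, smul_eq_mul]
  unfold area at h
  linear_combination h

end

/-- offsets -/
noncomputable def off {V : Type} {G : SimpleGraph V} {o : V → ℕ} : UU G o → ℝ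
  | Sum.inl _ => 0
  | Sum.inr (Sum.inl t) => etc t.k
  | Sum.inr (Sum.inr _) => 0

/-- types -/
def typ {V : Type} {G : SimpleGraph V} {o : V → ℕ} : UU G o → ℝ
  | Sum.inl _ => 1
  | Sum.inr _ => 0

noncomputable def val (B C E F : ℝ) (k : Fin 3) : ℝ :=
  etc k ^ 2 + C * etc k + B * tau k * etc k + E * tau k + F

theorem sp_i (k : Fin 3) : ∃ B C E F : ℝ, 1 + F ≤ 0 ∧ val B C E F k ≤ 0 ∧ 0 < 1 + E + F ∧
    ∀ k', k' ≠ k → 0 < val B C E F k' := by
  fin_cases k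
  · refine ⟨0, 0, 8, -2, by norm_num, by simp [val, etc, tau]; norm_num, by norm_num, ?_⟩
    intro k' hk
    fin_cases k' <;> simp [val, etc, tau] at hk ⊢ <;> norm_num
  · refine ⟨-3, 0, 5, -2, by norm_num, by simp [val, etc, tau]; norm_num, by norm_num, ?_⟩
    intro k' hk
    fin_cases k' <;> simp [val, etc, tau] at hk ⊢ <;> norm_num
  · refine ⟨0, 0, 2, -2, by norm_num, by simp [val, etc, tau]; norm_num, by norm_num, ?_⟩
    intro k' hk
    fin_cases k' <;> simp [val, etc, tau] at hk ⊢ <;> norm_num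

theorem sp_j (k : Fin 3) : ∃ B C E F : ℝ, 1 + E + F ≤ 0 ∧ val B C E F k ≤ 0 ∧ 0 < 1 + F ∧
    ∀ k', k' ≠ k → 0 < val B C E F k' := by
  fin_cases k
  · refine ⟨3, -3, -5, 3, by norm_num, by simp [val, etc, tau]; norm_num, by norm_num, ?_⟩
    intro k' hk
    fin_cases k' <;> simp [val, etc, tau] at hk ⊢ <;> norm_num
  · refine ⟨0, 0, -8, 6, by norm_num, by simp [val, etc, tau]; norm_num, by norm_num, ?_⟩
    intro k' hk
    fin_cases k' <;> simp [val, etc, tau] at hk ⊢ <;> norm_num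
  · refine ⟨0, 0, -2, 0, by norm_num, by simp [val, etc, tau]; norm_num, by norm_num, ?_⟩
    intro k' hk
    fin_cases k' <;> simp [val, etc, tau] at hk ⊢ <;> norm_num

section
variable {V : Type} [Fintype V] {G : SimpleGraph V} {o : V → ℕ}
variable (X Y : Module.Dual ℝ (V ⊕ Fin 3 → ℝ))

noncomputable def xx (u : UU G o) : ℝ := X (bb u)

theorem xx_clu (t : Clu G o) : xx X (Sum.inr (Sum.inl t) : UU G o) =
    (1 - tau t.k) * xx X (Sum.inl t.i : UU G o) + tau t.k * xx X (Sum.inl t.j : UU G o) := by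
  unfold xx
  rw [bb_clu, map_add, map_smul, map_smul, smul_eq_mul, smul_eq_mul]

theorem xx_free (r : Fin 6) : xx X (Sum.inr (Sum.inr r) : UU G o) =
    Q r 0 * xx X (Sum.inr (Sum.inr 0) : UU G o) + Q r 1 * xx X (Sum.inr (Sum.inr 1) : UU G o) +
      Q r 2 * xx X (Sum.inr (Sum.inr 2) : UU G o) := by
  unfold xx
  rw [bb_free, map_add, map_add, map_smul, map_smul, map_smul, smul_eq_mul, smul_eq_mul,
    smul_eq_mul]

noncomputable abbrev DX (s : ℝ) (u v w : UU G o) : ℝ := DD (xx X) (xx Y) off s u v w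

noncomputable abbrev FX (i j : UU G o) (B C E F s : ℝ) (w : UU G o) : ℝ :=
  FF (xx X) (xx Y) off typ i j B C E F s w

/-- the requirement for an edge -/
def EdgeOK (u v : UU G o) : Prop := ∃ (i j : UU G o) (B C E F : ℝ),
  (∀ s, FX X Y i j B C E F s u ≤ 0) ∧ (∀ s, FX X Y i j B C E F s v ≤ 0) ∧
  ∀ w, w ≠ u → w ≠ v → DX X Y 0 i j w ≠ 0 ∨
    ∃ c, 0 < c ∧ ∀ s, s ^ 2 * c ≤ FX X Y i j B C E F s w

variable {X Y}

theorem EdgeOK.symm {u v : UU G o} (h : EdgeOK X Y u v) : EdgeOK X Y v u := by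
  obtain ⟨i, j, B, C, E, F, h1, h2, h3⟩ := h
  exact ⟨i, j, B, C, E, F, h2, h1, fun w hw hw' => h3 w hw' hw⟩

/-- genericity -/
def Gen (G : SimpleGraph V) (o : V → ℕ) (X Y : Module.Dual ℝ (V ⊕ Fin 3 → ℝ)) : Prop :=
  (∀ u w : UU G o, u ≠ w → X (bb u) ≠ X (bb w)) ∧
    (∀ u v w : UU G o, u ≠ v → Ind3 (bb u) (bb v) (bb w) →
      area (X (bb u)) (Y (bb u)) (X (bb v)) (Y (bb v)) (X (bb w)) (Y (bb w)) ≠ 0)

theorem Gen.dx (hg : Gen G o X Y) {u v w : UU G o} (huv : u ≠ v)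
    (h : Ind3 (bb u) (bb v) (bb w)) : DX X Y 0 u v w ≠ 0 := by
  have := hg.2 u v w huv h
  simpa [DX, DD, xx] using this

theorem typ_le (u : UU G o) : typ u ≤ 1 := by
  rcases u with _ | _ <;> simp [typ]

theorem typ_nonneg (u : UU G o) : 0 ≤ typ u := by
  rcases u with _ | _ <;> simp [typ]

/-- edges with an end in `V` that are in general position with everything else -/
theorem edge_gen (hg : Gen G o X Y) {u v : UU G o} (huv : u ≠ v)
    (h : ∀ w, w ≠ u → w ≠ v → Ind3 (bb u) (bb v) (bb w)) : EdgeOK X Y u v := by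
  refine ⟨u, v, 0, 0, 0, -1, fun s => ?_, fun s => ?_, fun w hw hw' => Or.inl ?_⟩
  · have h1 := typ_le u
    have h2 : FX X Y u v 0 0 0 (-1) s u = -(1 - typ u) * (s * (xx X v - xx X u)) ^ 2 := by
      simp only [FX, FF, DD, area]; ring
    rw [h2]
    nlinarith [mul_nonneg (sub_nonneg.2 h1) (sq_nonneg (s * (xx X v - xx X u)))]
  · have h1 := typ_le v
    have h2 : FX X Y u v 0 0 0 (-1) s v = -(1 - typ v) * (s * (xx X v - xx X u)) ^ 2 := by
      simp only [FX, FF, DD, area]; ring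
    rw [h2]
    nlinarith [mul_nonneg (sub_nonneg.2 h1) (sq_nonneg (s * (xx X v - xx X u)))]
  · exact hg.dx huv (h w hw hw')

/-- edges between two points of `K_n` -/
theorem edge_ww (hg : Gen G o X Y) {u v : Clu G o ⊕ Fin 6} (huv : u ≠ v)
    (h : ∀ w : Clu G o ⊕ Fin 6, w ≠ u → w ≠ v →
      Ind3 (bb (Sum.inr u : UU G o)) (bb (Sum.inr v : UU G o)) (bb (Sum.inr w : UU G o)) ∨
      ∃ c : ℝ, c ≠ 0 ∧ ∀ s, DX X Y s (Sum.inr u) (Sum.inr v) (Sum.inr w) = s * c) :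
    EdgeOK X Y (Sum.inr u) (Sum.inr v) := by
  have hne : (Sum.inr u : UU G o) ≠ Sum.inr v := fun h => huv (Sum.inr_injective h)
  refine ⟨Sum.inr u, Sum.inr v, 0, 0, 0, 0, fun s => ?_, fun s => ?_, fun w hw hw' => ?_⟩
  · simp [FX, FF, DD, area, typ]
  · have : FX X Y (Sum.inr u : UU G o) (Sum.inr v) 0 0 0 0 s (Sum.inr v) = 0 := by
      simp only [FX, FF, DD, area, typ]; ring
    rw [this]
  · rcases w with a | w
    · right
      have hx : xx X (Sum.inr v : UU G o) - xx X (Sum.inr u) ≠ 0 :=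
        sub_ne_zero.2 (hg.1 _ _ hne.symm)
      refine ⟨(xx X (Sum.inr v : UU G o) - xx X (Sum.inr u)) ^ 2, by positivity, fun s => ?_⟩
      have h2 : FX X Y (Sum.inr u : UU G o) (Sum.inr v) 0 0 0 0 s (Sum.inl a) =
          (DX X Y s (Sum.inr u : UU G o) (Sum.inr v) (Sum.inl a)) ^ 2 +
            s ^ 2 * (xx X (Sum.inr v : UU G o) - xx X (Sum.inr u)) ^ 2 := by
        simp only [FX, FF, typ]; ring
      rw [h2]
      nlinarith [sq_nonneg (DX X Y s (Sum.inr u : UU G o) (Sum.inr v) (Sum.inl a))]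
    · rcases h w (fun h => hw (by rw [h])) (fun h => hw' (by rw [h])) with h1 | ⟨c, hc, h1⟩
      · exact Or.inl (hg.dx hne h1)
      · right
        refine ⟨c ^ 2, by positivity, fun s => ?_⟩
        have h2 : FX X Y (Sum.inr u : UU G o) (Sum.inr v) 0 0 0 0 s (Sum.inr w) =
            (DX X Y s (Sum.inr u : UU G o) (Sum.inr v) (Sum.inr w)) ^ 2 := by
          simp only [FX, FF, typ]; ring
        rw [h2, h1]
        exact le_of_eq (by ring)

theorem fx_clu (t t' : Clu G o) (h1 : t'.i = t.i) (h2 : t'.j = t.j) (B C E F s : ℝ) :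
    FX X Y (Sum.inl t.i : UU G o) (Sum.inl t.j) B C E F s (Sum.inr (Sum.inl t')) =
      s ^ 2 * ((xx X (Sum.inl t.j : UU G o) - xx X (Sum.inl t.i : UU G o)) ^ 2 * val B C E F t'.k) := by
  have hx := xx_clu X t'
  have hy := xx_clu Y t'
  rw [h1, h2] at hx hy
  simp only [FX, FF, DD, area, hx, hy, off, typ, val]
  ring

theorem fx_i (t : Clu G o) (B C E F s : ℝ) :
    FX X Y (Sum.inl t.i : UU G o) (Sum.inl t.j) B C E F s (Sum.inl t.i) =
      s ^ 2 * ((xx X (Sum.inl t.j : UU G o) - xx X (Sum.inl t.i : UU G o)) ^ 2 * (1 + F)) := by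
  simp only [FX, FF, DD, area, off, typ]
  ring

theorem fx_j (t : Clu G o) (B C E F s : ℝ) :
    FX X Y (Sum.inl t.i : UU G o) (Sum.inl t.j) B C E F s (Sum.inl t.j) =
      s ^ 2 * ((xx X (Sum.inl t.j : UU G o) - xx X (Sum.inl t.i : UU G o)) ^ 2 * (1 + E + F)) := by
  simp only [FX, FF, DD, area, off, typ]
  ring

/-- points outside the line of a cluster -/
theorem off_line (hg : Gen G o X Y) (t : Clu G o) (w : UU G o) (h1 : w ≠ Sum.inl t.i)
    (h2 : w ≠ Sum.inl t.j)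
    (h3 : ∀ t' : Clu G o, w = Sum.inr (Sum.inl t') → ¬ (t'.i = t.i ∧ t'.j = t.j)) :
    DX X Y 0 (Sum.inl t.i) (Sum.inl t.j) w ≠ 0 := by
  have hne : (Sum.inl t.i : UU G o) ≠ Sum.inl t.j := fun h => t.ne (Sum.inl_injective h)
  apply hg.dx hne
  rcases w with a | t' | r
  · exact ind_VVV t.ne (fun h => h1 (by rw [h])) (fun h => h2 (by rw [h]))
  · have h4 := h3 t' rfl
    refine ind_VVC t' t.ne fun h5 => h4 ?_
    have h6 := t.lt
    have h7 := t'.lt
    rcases h5 with ⟨h | h, h' | h'⟩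
    · exact absurd (h.trans h'.symm) t.ne
    · exact ⟨h.symm, h'.symm⟩
    · rw [h, h'] at h6; omega
    · exact absurd (h.trans h'.symm) t.ne
  · exact priv_F hne r rfl rfl

theorem edge_sp_i (hg : Gen G o X Y) (t : Clu G o) :
    EdgeOK X Y (Sum.inl t.i : UU G o) (Sum.inr (Sum.inl t)) := by
  obtain ⟨B, C, E, F, h1, h2, h3, h4⟩ := sp_i t.k
  have hx : xx X (Sum.inl t.j : UU G o) - xx X (Sum.inl t.i : UU G o) ≠ 0 :=
    sub_ne_zero.2 (hg.1 _ _ fun h => t.ne (Sum.inl_injective h).symm)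
  have hx2 : 0 < (xx X (Sum.inl t.j : UU G o) - xx X (Sum.inl t.i : UU G o)) ^ 2 := by
    positivity
  refine ⟨Sum.inl t.i, Sum.inl t.j, B, C, E, F, fun s => ?_, fun s => ?_, fun w hw hw' => ?_⟩
  · rw [fx_i]
    exact mul_nonpos_of_nonneg_of_nonpos (sq_nonneg s)
      (mul_nonpos_of_nonneg_of_nonpos hx2.le h1)
  · rw [fx_clu t t rfl rfl]
    exact mul_nonpos_of_nonneg_of_nonpos (sq_nonneg s)
      (mul_nonpos_of_nonneg_of_nonpos hx2.le h2)
  · by_cases hj : w = Sum.inl t.j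
    · subst hj
      exact Or.inr ⟨_, mul_pos hx2 h3, fun s => le_of_eq (fx_j t B C E F s).symm⟩
    by_cases hc : ∃ t' : Clu G o, w = Sum.inr (Sum.inl t') ∧ (t'.i = t.i ∧ t'.j = t.j)
    · obtain ⟨t', rfl, h5, h6⟩ := hc
      have h7 : t'.k ≠ t.k := fun h => hw' (by rw [Clu.ext' h5 h6 h])
      exact Or.inr ⟨_, mul_pos hx2 (h4 _ h7), fun s => le_of_eq (fx_clu t t' h5 h6 B C E F s).symm⟩
    · push Not at hc
      exact Or.inl (off_line hg t w hw hj fun t' ht' h => hc t' ht' h.1 h.2)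

theorem edge_sp_j (hg : Gen G o X Y) (t : Clu G o) :
    EdgeOK X Y (Sum.inl t.j : UU G o) (Sum.inr (Sum.inl t)) := by
  obtain ⟨B, C, E, F, h1, h2, h3, h4⟩ := sp_j t.k
  have hx : xx X (Sum.inl t.j : UU G o) - xx X (Sum.inl t.i : UU G o) ≠ 0 :=
    sub_ne_zero.2 (hg.1 _ _ fun h => t.ne (Sum.inl_injective h).symm)
  have hx2 : 0 < (xx X (Sum.inl t.j : UU G o) - xx X (Sum.inl t.i : UU G o)) ^ 2 := by
    positivity
  refine ⟨Sum.inl t.i, Sum.inl t.j, B, C, E, F, fun s => ?_, fun s => ?_, fun w hw hw' => ?_⟩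
  · rw [fx_j]
    exact mul_nonpos_of_nonneg_of_nonpos (sq_nonneg s)
      (mul_nonpos_of_nonneg_of_nonpos hx2.le h1)
  · rw [fx_clu t t rfl rfl]
    exact mul_nonpos_of_nonneg_of_nonpos (sq_nonneg s)
      (mul_nonpos_of_nonneg_of_nonpos hx2.le h2)
  · by_cases hi : w = Sum.inl t.i
    · subst hi
      exact Or.inr ⟨_, mul_pos hx2 h3, fun s => le_of_eq (fx_i t B C E F s).symm⟩
    by_cases hc : ∃ t' : Clu G o, w = Sum.inr (Sum.inl t') ∧ (t'.i = t.i ∧ t'.j = t.j)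
    · obtain ⟨t', rfl, h5, h6⟩ := hc
      have h7 : t'.k ≠ t.k := fun h => hw' (by rw [Clu.ext' h5 h6 h])
      exact Or.inr ⟨_, mul_pos hx2 (h4 _ h7), fun s => le_of_eq (fx_clu t t' h5 h6 B C E F s).symm⟩
    · push Not at hc
      exact Or.inl (off_line hg t w hi hw fun t' ht' h => hc t' ht' h.1 h.2)

end

end Pool.Agent.U410.DJ
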